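import Pool.Agent.H62.BCP.CJT

/-!
# Board bcp_modules, row CJL: permutation matrices
-/

set_option autoImplicit false

open Set Matrix

namespace Pool.Agent.H62.BCP

open Pool.Agent.H77.BC

variable {K : Type} [Field K]

/-- the matrix which exchanges the basis vectors with numbers `0` and `i` -/
def pm {k : ℕ} (i : Fin (k + 1)) : Matrix (Fin (k + 1)) (Fin (k + 1)) K :=
  Matrix.of fun a b => if a = Equiv.swap 0 i b then 1 else 0

theorem pm_mul_self {k : ℕ} (i : Fin (k + 1)) : (pm i : Matrix _ _ K) * pm i = 1 := by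
  ext a b
  rw [Matrix.mul_apply, Finset.sum_eq_single (Equiv.swap 0 i b)]
  · simp [pm, Matrix.one_apply]
  · intro c _ hc
    simp [pm, hc]
  · simp

/-- the matrix as an element of the general linear group -/
def pg {k : ℕ} (i : Fin (k + 1)) : GL (Fin (k + 1)) K := ⟨pm i, pm i, pm_mul_self i, pm_mul_self i⟩

theorem pm_mulVec {k : ℕ} (i : Fin (k + 1)) : (pm i : Matrix _ _ K) *ᵥ e0 = Pi.single i 1 := by
  funext a
  rw [e0, mulVec_single_one]
  simp [pm, Matrix.col_apply, Pi.single_apply]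

theorem vecMul_pm {k : ℕ} (i : Fin (k + 1)) (x : Fin (k + 1) → K) (b : Fin (k + 1)) :
    (x ᵥ* (pm i : Matrix _ _ K)) b = x (Equiv.swap 0 i b) := by
  rw [vecMul, dotProduct, Finset.sum_eq_single (Equiv.swap 0 i b)]
  · simp [pm]
  · intro c _ hc
    simp [pm, hc]
  · simp

theorem transv_eq {k : ℕ} (i j : Fin k) (t : K) :
    (1 : Matrix (Fin k) (Fin k) K) + vecMulVec (Pi.single i 1) (Pi.single j t) =
      transvection i j t := by
  rw [transvection]
  congr 1
  ext a b
  rw [vecMulVec_apply]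
  by_cases h1 : i = a
  · subst h1
    by_cases h2 : j = b
    · subst h2
      simp
    · simp [h2, Ne.symm h2]
  · simp [h1, Ne.symm h1]

theorem pf_CJL (h : CJT) : CJL := by
  intro K _ k i j hij
  have hne : Equiv.swap 0 i j ≠ 0 := by
    intro h0
    apply hij
    have h1 := congrArg (Equiv.swap 0 i) h0
    rw [Equiv.swap_apply_self, Equiv.swap_apply_left] at h1
    exact h1.symm
  obtain ⟨l, hl⟩ := Fin.exists_succ_eq.2 hne
  refine ⟨pg i, l, fun H t => ?_⟩
  rw [h H (pg i) (Pi.single l t)]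
  have e1 : ((pg i : GL (Fin (k + 1)) K).val : Matrix _ _ K) *ᵥ e0 = Pi.single i 1 := pm_mulVec i
  have e2 : (Fin.cons 0 (Pi.single l t : Fin k → K) : Fin (k + 1) → K) ᵥ*
      (((pg i : GL (Fin (k + 1)) K)⁻¹).val : Matrix _ _ K) = Pi.single j t := by
    have e3 : (((pg i : GL (Fin (k + 1)) K)⁻¹).val : Matrix _ _ K) = pm i := rfl
    rw [e3]
    funext b
    rw [vecMul_pm]
    by_cases hb : b = j
    · subst hb
      rw [← hl, Fin.cons_succ, Pi.single_eq_same, Pi.single_eq_same]
    · rw [Pi.single_eq_of_ne hb]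
      have h3 : Equiv.swap 0 i b ≠ l.succ := by
        rw [hl]
        exact fun h4 => hb ((Equiv.swap 0 i).injective h4)
      revert h3
      refine Fin.cases ?_ (fun m => ?_) (Equiv.swap 0 i b)
      · intro _
        rfl
      · intro h3
        rw [Fin.cons_succ, Pi.single_eq_of_ne]
        exact fun h4 => h3 (by rw [h4])
  rw [e1, e2]
  constructor
  · rintro ⟨g, hg, h1⟩
    exact ⟨g, hg, h1.trans (transv_eq i j t)⟩
  · rintro ⟨g, hg, h1⟩
    exact ⟨g, hg, h1.trans (transv_eq i j t).symm⟩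

end Pool.Agent.H62.BCP
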