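import Pool.Agent.H77.BC.Targets

/-!
# Board bcp_modules, row CJT: conjugates and transvections
-/

set_option autoImplicit false

open Set Matrix

namespace Pool.Agent.H62.BCP

open Pool.Agent.H77.BC

variable {K : Type} [Field K] {k : ℕ}

theorem bl_transv (φ : Fin k → K) :
    ((bl 1 φ 1 : GL (Fin (k + 1)) K).val : Matrix (Fin (k + 1)) (Fin (k + 1)) K) =
      1 + vecMulVec e0 (Fin.cons 0 φ : Fin (k + 1) → K) := by
  rw [bl_val]
  ext i j
  refine Fin.cases ?_ (fun i => ?_) i <;> refine Fin.cases ?_ (fun j => ?_) j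
  · simp [e0, vecMulVec_apply]
  · simp [e0, vecMulVec_apply, Matrix.one_apply, Fin.ext_iff]
  · simp [e0, vecMulVec_apply, Matrix.one_apply, Fin.ext_iff]
  · simp [e0, vecMulVec_apply, Matrix.one_apply]

theorem conj_transv (g : GL (Fin (k + 1)) K) (φ : Fin k → K) :
    ((g * bl 1 φ 1 * g⁻¹ : GL (Fin (k + 1)) K).val : Matrix (Fin (k + 1)) (Fin (k + 1)) K) =
      1 + vecMulVec ((g.val : Matrix _ _ K) *ᵥ e0)
        ((Fin.cons 0 φ : Fin (k + 1) → K) ᵥ* ((g⁻¹).val : Matrix _ _ K)) := by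
  rw [Units.val_mul, Units.val_mul, bl_transv, Matrix.mul_add, Matrix.mul_one, Matrix.add_mul,
    ← Units.val_mul, mul_inv_cancel, Units.val_one, Matrix.mul_vecMulVec, Matrix.vecMulVec_mul]

theorem pf_CJT : CJT := by
  intro K _ k H g φ
  rw [mem_AA, mem_cj]
  constructor
  · intro h
    exact ⟨_, h, conj_transv g φ⟩
  · rintro ⟨x, hx, h⟩
    rw [← conj_transv] at h
    have e : x = g * bl 1 φ 1 * g⁻¹ := Units.ext h
    rwa [e] at hx

end Pool.Agent.H62.BCP
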