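import Pool.Agent.H77.BC.Targets

/-!
# Board bcp_modules, row SLA: additive groups of vectors stable under elementary matrices
-/

set_option autoImplicit false

open Set Matrix

namespace Pool.Agent.H62.BCP

open Pool.Agent.H77.BC

theorem vecMul_transvection {K : Type} [Field K] {k : ℕ} (i j : Fin k) (t : K) (φ : Fin k → K) :
    φ ᵥ* transvection i j t = φ + Pi.single j (t * φ i) := by
  rw [transvection, vecMul_add, vecMul_one]
  congr 1
  funext l
  rw [vecMul, dotProduct, Finset.sum_eq_single i]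
  · by_cases h : j = l
    · subst h
      simp [mul_comm]
    · simp [Matrix.single_apply, h, Pi.single_apply, Ne.symm h]
  · intro b _ hb
    simp [Matrix.single_apply, Ne.symm hb]
  · simp

theorem pf_SLA : SLA := by
  intro K _ k hk A hA
  by_cases h0 : A = ⊥
  · exact Or.inl h0
  right
  obtain ⟨φ, hφ, hne⟩ : ∃ φ ∈ A, φ ≠ 0 := by
    by_contra hc
    push_neg at hc
    exact h0 ((AddSubgroup.eq_bot_iff_forall A).2 hc)
  obtain ⟨i, hi⟩ : ∃ i, φ i ≠ 0 := by
    by_contra hc
    push_neg at hc
    exact hne (funext hc)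
  -- from `φ` with `φ i ≠ 0` to all `Pi.single j s`, `j ≠ i`
  have key : ∀ (φ : Fin k → K) (i : Fin k), φ ∈ A → φ i ≠ 0 → ∀ j, j ≠ i → ∀ s : K,
      (Pi.single j s : Fin k → K) ∈ A := by
    intro φ i hφ hi j hj s
    have h1 := hA i j (s * (φ i)⁻¹) (Ne.symm hj) φ hφ
    rw [vecMul_transvection, mul_assoc, inv_mul_cancel₀ hi, mul_one] at h1
    have h2 := A.sub_mem h1 hφ
    rwa [add_sub_cancel_left] at h2
  have h1 := key φ i hφ hi
  have hall : ∀ j, ∀ s : K, (Pi.single j s : Fin k → K) ∈ A := by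
    intro j s
    by_cases hj : j = i
    · subst hj
      obtain ⟨l, hl⟩ : ∃ l : Fin k, l ≠ j := by
        haveI : Nontrivial (Fin k) := Fin.nontrivial_iff_two_le.2 hk
        exact exists_ne j
      exact key (Pi.single l 1) l (h1 l hl 1) (by simp) j (Ne.symm hl) s
    · exact h1 j hj s
  rw [eq_top_iff]
  intro x _
  rw [← Finset.univ_sum_single x]
  exact A.sum_mem fun l _ => hall l (x l)

end Pool.Agent.H62.BCP
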